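import Pool.Agent.H71.CQ.Basic

/-!
# Row LNW: algebraic part and components of the coding structures
-/

set_option autoImplicit false

open Set

namespace Pool.Agent.H63.CQ

open Pool.Agent.H71.CQ

/-- same copy and same component -/
def Cc {L : Type} (N : NF L) (e : ℕ → ℕ → L) : LV N e → LV N e → Prop
  | .inl k, .inl k' => k = k'
  | .inl _, .inr _ => False
  | .inr _, .inl _ => False
  | .inr v, .inr w => v.1 = w.1 ∧ Cm N e v.2 w.2

theorem not_range_inl {α β : Type} {a : α ⊕ β} (h : a ∉ Set.range (Sum.inl : α → α ⊕ β)) :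
    ∃ v, a = Sum.inr v := by
  rcases a with k | v
  · exact absurd ⟨k, rfl⟩ h
  · exact ⟨v, rfl⟩

theorem inr_not_range {α β : Type} (v : β) :
    (Sum.inr v : α ⊕ β) ∉ Set.range (Sum.inl : α → α ⊕ β) := by
  rintro ⟨k, hk⟩
  cases hk

section

variable {L : Type} (N : NF L) (e : ℕ → ℕ → L) (x : ℕ) (O : ℕ → Set {k // Wp N e k})
  (y : ℕ → ℕ) (t : ℕ → Equiv.Perm {k // Wp N e k}) (S : ℕ → Bool)

theorem le_rr (v w : Fin 3 × {z // ¬ Wp N e z}) (h : v.1 = w.1) :
    LE N e x O y t S (Sum.inr v) (Sum.inr w) = e v.2 w.2 := if_pos h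

theorem le_rr' (v w : Fin 3 × {z // ¬ Wp N e z}) (h : v.1 ≠ w.1) :
    LE N e x O y t S (Sum.inr v) (Sum.inr w) = fr N (e v.2 v.2) (e w.2 w.2) := if_neg h

theorem op_lw (hL : Lnk N e x O y t) (c : Fin 3) (k : {k // Wp N e k}) (z : ℕ)
    (hz : ¬ Wp N e z) : Op N (Lw N e x O y t S c k z) := by
  unfold Lw
  split_ifs with h1 h2
  · exact op_of_wp (t _ k).2 ((hL.hy _).not_wp hL.hx)
  · exact op_of_wp k.2 ((hL.hy _).not_wp hL.hx)
  · exact op_of_wp k.2 hz

end

theorem pf_LNW (hWTR : T_WTR) (hWCH : T_WCH) : T_LNW := by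
  intro L N hN hFre _ e x O y t hL S
  classical
  -- the algebraic part
  have h1 : ∀ k, Wp N (LE N e x O y t S) (Sum.inl k) := by
    refine hWTR L N ℕ (LV N e) e (LE N e x O y t S) Sum.inl (fun _ _ => rfl) ?_
    intro k hk
    have hs : Srt (LE N e x O y t S) (e k k) ⊆
        Sum.inl '' {a : {k // Wp N e k} | (a : ℕ) ∈ Srt e (e k k)} := by
      intro a ha
      rcases a with a | v
      · exact ⟨a, ha, rfl⟩
      · exfalso
        have h2 : e v.2 v.2 = e k k := by
          rw [← le_rr N e x O y t S v v rfl]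
          exact ha
        have h3 := srt_inf v.2.2
        rw [h2] at h3
        exact h3 hk
    refine Set.Finite.subset (Set.Finite.image _ ?_) hs
    exact Set.Finite.preimage (Subtype.val_injective.injOn) hk
  have h2 : ∀ z : ℕ, ¬ Wp N e z → (Srt (LE N e x O y t S) (e z z)).Infinite := by
    intro z hz
    have h3 := srt_inf hz
    let f : ℕ → LV N e := fun w => if h : Wp N e w then Sum.inl ⟨w, h⟩ else Sum.inr (0, ⟨w, h⟩)
    have hf1 : ∀ w (h : Wp N e w), f w = Sum.inl ⟨w, h⟩ := fun w h => dif_pos h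
    have hf2 : ∀ w (h : ¬ Wp N e w), f w = Sum.inr (0, ⟨w, h⟩) := fun w h => dif_neg h
    have hfi : Function.Injective f := by
      intro w w' hw
      by_cases a1 : Wp N e w
      · by_cases a2 : Wp N e w'
        · rw [hf1 w a1, hf1 w' a2] at hw
          exact congrArg Subtype.val (Sum.inl.inj hw)
        · rw [hf1 w a1, hf2 w' a2] at hw
          cases hw
      · by_cases a2 : Wp N e w'
        · rw [hf2 w a1, hf1 w' a2] at hw
          cases hw
        · rw [hf2 w a1, hf2 w' a2] at hw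
          exact congrArg (fun v : Fin 3 × {z // ¬ Wp N e z} => (v.2 : ℕ)) (Sum.inr.inj hw)
    refine (h3.image hfi.injOn).mono ?_
    rintro _ ⟨w, hw, rfl⟩
    by_cases a1 : Wp N e w
    · rw [hf1 w a1]
      exact hw
    · rw [hf2 w a1]
      change LE N e x O y t S _ _ = _
      rw [le_rr N e x O y t S _ _ rfl]
      exact hw
  have hch : ∀ (c : Fin 3) (z z' : ℕ) (_ : Cm N e z z') (hz : ¬ Wp N e z) (hz' : ¬ Wp N e z'),
      Relation.ReflTransGen (fun a b => a ∉ Set.range (Sum.inl : {k // Wp N e k} → LV N e) ∧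
        b ∉ Set.range (Sum.inl : {k // Wp N e k} → LV N e) ∧
        (¬ Op N (LE N e x O y t S a b) ∨ ¬ Op N (LE N e x O y t S b a)))
        (Sum.inr (c, ⟨z, hz⟩) : LV N e) (Sum.inr (c, ⟨z', hz'⟩)) := by
    intro c z z' hzz hz
    induction hzz with
    | refl => exact fun _ => Relation.ReflTransGen.refl
    | @tail b w _ hbc ih =>
      intro hz'
      have hb : ¬ Wp N e b := hbc.1
      refine (ih hb).tail ⟨inr_not_range _, inr_not_range _, ?_⟩
      have e1 : LE N e x O y t S (Sum.inr (c, ⟨b, hb⟩)) (Sum.inr (c, ⟨w, hz'⟩)) = e b w :=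
        le_rr N e x O y t S (c, ⟨b, hb⟩) (c, ⟨w, hz'⟩) rfl
      have e2 : LE N e x O y t S (Sum.inr (c, ⟨w, hz'⟩)) (Sum.inr (c, ⟨b, hb⟩)) = e w b :=
        le_rr N e x O y t S (c, ⟨w, hz'⟩) (c, ⟨b, hb⟩) rfl
      rw [e1, e2]
      exact hbc.2.2
  have hW := hWCH L N (LV N e) (LE N e x O y t S) (Set.range Sum.inl) (Cc N e)
    (by
      rintro _ ⟨k, rfl⟩
      exact h1 k)
    (by
      rintro _ ⟨k, rfl⟩ a ha
      obtain ⟨v, rfl⟩ := not_range_inl ha
      exact op_lw N e x O y t S hL v.1 k v.2 v.2.2)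
    (by
      intro a ha
      obtain ⟨v, rfl⟩ := not_range_inl ha
      rw [le_rr N e x O y t S v v rfl]
      exact h2 v.2 v.2.2)
    (by
      intro a ha b hb hab
      obtain ⟨v, rfl⟩ := not_range_inl ha
      obtain ⟨w, rfl⟩ := not_range_inl hb
      by_cases hvw : v.1 = w.1
      · rw [le_rr N e x O y t S v w hvw]
        exact op_of_cm v.2.2 w.2.2 fun h => hab ⟨hvw, h⟩
      · rw [le_rr' N e x O y t S v w hvw]
        have hne := hFre e hL.m _ _ (srt_inf v.2.2) (srt_inf w.2.2)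
        exact (fr_mem hne).2.2.2.2.1)
    (by
      intro a ha b hb hab
      obtain ⟨⟨c, z⟩, rfl⟩ := not_range_inl ha
      obtain ⟨⟨c', z'⟩, rfl⟩ := not_range_inl hb
      obtain ⟨h3, h4⟩ := hab
      have h3' : c = c' := h3
      subst h3'
      exact hch c z z' h4 z.2 z'.2)
    (by
      rintro (k | v)
      · exact rfl
      · exact ⟨rfl, cm_refl _⟩)
    (by
      rintro (k | v) (k' | w) h
      · exact (show k = k' from h).symm
      · exact h
      · exact h
      · exact ⟨h.1.symm, h.2.symm⟩)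
    (by
      rintro (k | v) (k' | w) (k'' | w') h h'
      · exact (show k = k' from h).trans h'
      · exact h'
      · exact False.elim h
      · exact False.elim h
      · exact False.elim h
      · exact False.elim h
      · exact False.elim h'
      · exact ⟨h.1.trans h'.1, h.2.trans h'.2⟩)
  refine ⟨h1, fun v hv => inr_not_range v ((hW.1 _).1 hv), fun v w => ?_⟩
  rw [hW.2 _ (inr_not_range v)]
  exact ⟨fun h => h.2, fun h => ⟨inr_not_range w, h⟩⟩

end Pool.Agent.H63.CQ
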