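import Pool.Agent.H71.CQ.Basic

/-!
# Row UNC: the coding structures are countable-to-one
-/

set_option autoImplicit false

open Set

namespace Pool.Agent.H63.CQ

open Pool.Agent.H71.CQ

section

variable {L : Type} (N : NF L) (e : ℕ → ℕ → L) (x y : ℕ) (hx : ¬ Wp N e x) (hy : ¬ Wp N e y)
  (l0 l1 : L)

/-- the left points -/
def Pt (m : ℕ) : SV N e (fun _ : Bool × ℕ => e) := Sum.inr ⟨(false, m), x, hx⟩

/-- the right points -/
def Qt (n : ℕ) : SV N e (fun _ : Bool × ℕ => e) := Sum.inr ⟨(true, n), y, hy⟩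

theorem pt_inj : Function.Injective (Pt N e x hx) := by
  intro m m' h
  have h1 := Sum.inr.inj h
  have h2 := congrArg (fun v : SQ N (fun _ : Bool × ℕ => e) => v.1.2) h1
  exact h2

theorem qt_inj : Function.Injective (Qt N e y hy) := by
  intro m m' h
  have h1 := Sum.inr.inj h
  have h2 := congrArg (fun v : SQ N (fun _ : Bool × ℕ => e) => v.1.2) h1
  exact h2

theorem ue_pq (u : ℕ → Bool) (m n : ℕ) [Decidable (Hg u m n)] :
    UE N e x y l0 l1 u (Pt N e x hx m) (Qt N e y hy n) = if Hg u m n then l1 else l0 := by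
  classical
  have h1 : ¬ ((false, m) : Bool × ℕ) = (true, n) := by
    intro h
    exact Bool.noConfusion (congrArg Prod.fst h)
  have h2 : Ol (false, m) (true, n) := Or.inl ⟨rfl, rfl⟩
  have h3 : UE N e x y l0 l1 u (Pt N e x hx m) (Qt N e y hy n) =
      Cr N e x y l0 l1 u ⟨(false, m), x, hx⟩ ⟨(true, n), y, hy⟩ := if_neg h1
  have h4 : Cr N e x y l0 l1 u ⟨(false, m), x, hx⟩ ⟨(true, n), y, hy⟩ =
      Cl N e x y l0 l1 u ⟨(false, m), x, hx⟩ ⟨(true, n), y, hy⟩ := if_pos h2
  rw [h3, h4]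
  unfold Cl
  rw [if_pos ⟨rfl, rfl, rfl, rfl⟩]
  by_cases h5 : Hg u m n
  · rw [if_pos h5, if_pos h5]
  · rw [if_neg h5, if_neg h5]

theorem hg_iff (u : ℕ → Bool) (k n : ℕ) :
    Hg u (k + 4) (n + 4) ↔ k < 2 * n + (if u n = true then 1 else 0) := by
  unfold Hg
  constructor
  · rintro (h | h | h)
    · omega
    · omega
    · have h3 := h.2.2
      simp only [Nat.add_sub_cancel] at h3
      exact h3
  · intro h
    refine Or.inr (Or.inr ⟨by omega, by omega, ?_⟩)
    simp only [Nat.add_sub_cancel]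
    exact h

/-- the neighbours of a right point -/
theorem card_nb (h01 : l0 ≠ l1) (u : ℕ → Bool) (n : ℕ) :
    {b | (∃ m, 4 ≤ m ∧ b = Pt N e x hx m) ∧
      UE N e x y l0 l1 u b (Qt N e y hy (n + 4)) = l1}.encard =
      ((2 * n + (if u n = true then 1 else 0) : ℕ) : ℕ∞) := by
  classical
  have h : {b | (∃ m, 4 ≤ m ∧ b = Pt N e x hx m) ∧
      UE N e x y l0 l1 u b (Qt N e y hy (n + 4)) = l1} =
      (fun k => Pt N e x hx (k + 4)) ''
        ((Finset.range (2 * n + (if u n = true then 1 else 0)) : Finset ℕ) : Set ℕ) := by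
    ext b
    constructor
    · rintro ⟨⟨m, hm, rfl⟩, hb⟩
      refine ⟨m - 4, ?_, ?_⟩
      · rw [Finset.mem_coe, Finset.mem_range, ← hg_iff u (m - 4) n, Nat.sub_add_cancel hm]
        by_contra hc
        rw [ue_pq, if_neg hc] at hb
        exact h01 hb
      · change Pt N e x hx (m - 4 + 4) = Pt N e x hx m
        rw [Nat.sub_add_cancel hm]
    · rintro ⟨k, hk, rfl⟩
      refine ⟨⟨k + 4, by omega, rfl⟩, ?_⟩
      change UE N e x y l0 l1 u (Pt N e x hx (k + 4)) (Qt N e y hy (n + 4)) = l1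
      rw [ue_pq, if_pos]
      rw [hg_iff]
      exact Finset.mem_range.1 (Finset.mem_coe.1 hk)
  have hi : Function.Injective (fun k => Pt N e x hx (k + 4)) := by
    intro k k' hk
    have := pt_inj N e x hx hk
    omega
  rw [h, hi.encard_image, Set.encard_coe_eq_coe_finsetCard, Finset.card_range]

end

theorem pf_UNC (hUNX : T_UNX) : T_UNC := by
  intro L N hN e he x y hx hy l0 l1 h01 u
  classical
  -- an isomorphism which fixes the first points
  have key : ∀ (u1 u2 : ℕ → Bool) (h : SV N e (fun _ : Bool × ℕ => e) ≃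
      SV N e (fun _ : Bool × ℕ => e)),
      IsIso (UE N e x y l0 l1 u1) (UE N e x y l0 l1 u2) h →
      (∀ i : Fin 4, h (Pt N e x hx i) = Pt N e x hx i) →
      (∀ i : Fin 4, h (Qt N e y hy i) = Qt N e y hy i) → u1 = u2 := by
    intro u1 u2 h hh hP hQ
    have hq : ∀ a, (∃ n, 4 ≤ n ∧ a = Qt N e y hy n) ↔ ∃ n, 4 ≤ n ∧ h a = Qt N e y hy n := by
      intro a
      have e1 := (hUNX L N hN e he x y hx hy l0 l1 h01 u1 a).1
      have e2 := (hUNX L N hN e he x y hx hy l0 l1 h01 u2 (h a)).1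
      refine e1.symm.trans (Iff.trans ?_ e2)
      refine forall_congr' fun i => ?_
      have e3 : UE N e x y l0 l1 u2 (Pt N e x hx i) (h a) =
          UE N e x y l0 l1 u1 (Pt N e x hx i) a := by
        have := hh (Pt N e x hx i) a
        rwa [hP i] at this
      change (UE N e x y l0 l1 u1 (Pt N e x hx i) a = _) ↔
        (UE N e x y l0 l1 u2 (Pt N e x hx i) (h a) = _)
      rw [e3]
    have hp : ∀ a, (∃ n, 4 ≤ n ∧ a = Pt N e x hx n) ↔ ∃ n, 4 ≤ n ∧ h a = Pt N e x hx n := by
      intro a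
      have e1 := (hUNX L N hN e he x y hx hy l0 l1 h01 u1 a).2
      have e2 := (hUNX L N hN e he x y hx hy l0 l1 h01 u2 (h a)).2
      refine e1.symm.trans (Iff.trans ?_ e2)
      refine forall_congr' fun i => ?_
      have e3 : UE N e x y l0 l1 u2 (h a) (Qt N e y hy i) =
          UE N e x y l0 l1 u1 a (Qt N e y hy i) := by
        have := hh a (Qt N e y hy i)
        rwa [hQ i] at this
      change (UE N e x y l0 l1 u1 a (Qt N e y hy i) = _) ↔
        (UE N e x y l0 l1 u2 (h a) (Qt N e y hy i) = _)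
      rw [e3]
    funext n
    obtain ⟨n', hn', e4⟩ := (hq (Qt N e y hy (n + 4))).1 ⟨n + 4, by omega, rfl⟩
    obtain ⟨k, rfl⟩ : ∃ k, n' = k + 4 := ⟨n' - 4, by omega⟩
    have c1 := card_nb N e x y hx hy l0 l1 h01 u1 n
    have c2 := card_nb N e x y hx hy l0 l1 h01 u2 k
    have c3 : {b | (∃ m, 4 ≤ m ∧ b = Pt N e x hx m) ∧
        UE N e x y l0 l1 u2 b (Qt N e y hy (k + 4)) = l1} =
        h '' {b | (∃ m, 4 ≤ m ∧ b = Pt N e x hx m) ∧
          UE N e x y l0 l1 u1 b (Qt N e y hy (n + 4)) = l1} := by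
      ext b
      constructor
      · rintro ⟨hb1, hb2⟩
        refine ⟨h.symm b, ⟨(hp _).2 ?_, ?_⟩, h.apply_symm_apply b⟩
        · rw [h.apply_symm_apply]
          exact hb1
        · have := hh (h.symm b) (Qt N e y hy (n + 4))
          rw [h.apply_symm_apply, e4] at this
          rw [← this]
          exact hb2
      · rintro ⟨a, ⟨ha1, ha2⟩, rfl⟩
        refine ⟨(hp a).1 ha1, ?_⟩
        have := hh a (Qt N e y hy (n + 4))
        rw [e4] at this
        rw [this]
        exact ha2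
    rw [c3, h.injective.encard_image, c1] at c2
    have c4 : 2 * n + (if u1 n = true then 1 else 0) = 2 * k + (if u2 k = true then 1 else 0) := by
      exact_mod_cast c2
    have c5 : n = k := by
      split_ifs at c4 <;> omega
    subst c5
    cases h1 : u1 n <;> cases h2 : u2 n <;> simp [h1, h2] at c4 <;> rfl
  -- the invariant
  have hch : ∀ v : {u' | Iso (UE N e x y l0 l1 u) (UE N e x y l0 l1 u')},
      ∃ g : SV N e (fun _ : Bool × ℕ => e) ≃ SV N e (fun _ : Bool × ℕ => e),
        IsIso (UE N e x y l0 l1 u) (UE N e x y l0 l1 v.1) g := fun v => v.2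
  choose g hg using hch
  let f : {u' | Iso (UE N e x y l0 l1 u) (UE N e x y l0 l1 u')} →
      (Fin 4 → SV N e (fun _ : Bool × ℕ => e)) × (Fin 4 → SV N e (fun _ : Bool × ℕ => e)) :=
    fun v => (fun i => (g v).symm (Pt N e x hx i), fun i => (g v).symm (Qt N e y hy i))
  have hf : Function.Injective f := by
    intro v w hvw
    apply Subtype.ext
    refine key v.1 w.1 ((g v).symm.trans (g w)) ((hg v).symm.trans (hg w)) ?_ ?_
    · intro i
      have h1 := congrFun (congrArg Prod.fst hvw) i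
      change (g w) ((g v).symm (Pt N e x hx i)) = _
      change (g v).symm (Pt N e x hx i) = (g w).symm (Pt N e x hx i) at h1
      rw [h1, (g w).apply_symm_apply]
    · intro i
      have h1 := congrFun (congrArg Prod.snd hvw) i
      change (g w) ((g v).symm (Qt N e y hy i)) = _
      change (g v).symm (Qt N e y hy i) = (g w).symm (Qt N e y hy i) at h1
      rw [h1, (g w).apply_symm_apply]
  exact (Set.countable_coe_iff).1 hf.countable

end Pool.Agent.H63.CQ
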